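import Pool.Agent.K9h39.Derr.Layered

/-!
The numbers of permutations and derangements on a cyclic sequence of layers of the same size, where
every second pair of consecutive layers is completely joined.
-/

set_option autoImplicit false

namespace Pool.Agent.K9h39.Derr

open Finset

section inj

variable {K : Type} [Fintype K] [DecidableEq K]

/-- The number of injections `T → K` inside the relation `B`. -/
noncomputable def inj (B : K → K → Prop) (T : Finset K) : ℕ :=
  Nat.card {f : T ↪ K // ∀ a : T, B a (f a)}

omit [DecidableEq K] in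
lemma sum_cnt (B : K → K → Prop) (T : Finset K) : ∑ S : Finset K, cnt B T S = inj B T := by
  classical
  unfold cnt inj
  rw [← Nat.card_sigma]
  refine Nat.card_congr (Equiv.ofBijective
    (fun p => ⟨⟨fun a => (p.2.1 a : K), fun a b h => p.2.1.injective (Subtype.ext h)⟩, p.2.2⟩)
    ⟨?_, ?_⟩)
  · rintro ⟨S, e, he⟩ ⟨S', e', he'⟩ h
    have h1 : ∀ a : T, (e a : K) = e' a := by
      intro a
      have h2 := congrArg (fun f => f.1 a) h
      exact h2
    have h3 : S = S' := by
      ext x
      constructor
      · intro hx
        obtain ⟨a, ha⟩ := e.surjective ⟨x, hx⟩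
        have h4 := h1 a
        rw [ha] at h4
        rw [show x = (e' a : K) from h4]
        exact (e' a).2
      · intro hx
        obtain ⟨a, ha⟩ := e'.surjective ⟨x, hx⟩
        have h4 := h1 a
        rw [ha] at h4
        rw [show x = (e a : K) from h4.symm]
        exact (e a).2
    subst h3
    have h4 : e = e' := by
      ext a
      exact h1 a
    subst h4
    rfl
  · rintro ⟨f, hf⟩
    refine ⟨⟨Finset.univ.map f, Equiv.ofBijective
      (fun a => ⟨f a, by simp⟩) ⟨?_, ?_⟩, ?_⟩, ?_⟩
    · intro a b h
      exact f.injective (congrArg Subtype.val h)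
    · rintro ⟨x, hx⟩
      simp only [mem_map, mem_univ, true_and] at hx
      obtain ⟨a, ha⟩ := hx
      exact ⟨a, Subtype.ext ha⟩
    · intro a
      exact hf a
    · rfl

omit [Fintype K] [DecidableEq K] in
lemma cnt_eq_zero (B : K → K → Prop) (S T : Finset K) (h : S.card ≠ T.card) :
    cnt B S T = 0 := by
  unfold cnt
  have : IsEmpty {e : S ≃ T // ∀ a : S, B a (e a)} := by
    refine ⟨fun e => h ?_⟩
    have h1 := Fintype.card_congr e.1
    simpa using h1
  exact Nat.card_of_isEmpty

omit [Fintype K] in
lemma cnt_true (S T : Finset K) (h : S.card = T.card) :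
    cnt (fun _ _ : K => True) S T = (S.card).factorial := by
  classical
  unfold cnt
  have e0 : S ≃ T := Fintype.equivOfCardEq (by simpa using h)
  have h1 : Nat.card {e : S ≃ T // ∀ _a : S, True} = Nat.card (S ≃ T) :=
    Nat.card_congr (Equiv.subtypeUnivEquiv (fun _ _ => trivial))
  rw [h1, Nat.card_eq_fintype_card, Fintype.card_equiv e0]
  simp

/-- `r!` times the number of matchings of size `r` in `B`. -/
noncomputable def wt (B : K → K → Prop) (r : ℕ) : ℕ :=
  r.factorial * ∑ T ∈ powersetCard r univ, inj B T

end inj

section cyc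

variable {ι K : Type} [Fintype ι] [DecidableEq ι] [Fintype K] [DecidableEq K]

/-- The successor of a layer. -/
def next (ρ : Equiv.Perm ι) : Equiv.Perm (ι × Bool) where
  toFun x := if x.2 then (ρ x.1, false) else (x.1, true)
  invFun x := if x.2 then (x.1, false) else (ρ.symm x.1, true)
  left_inv := by
    rintro ⟨j, b⟩
    cases b <;> simp
  right_inv := by
    rintro ⟨j, b⟩
    cases b <;> simp

/-- The relation between a layer and the next one. -/
def rel (B : ι → K → K → Prop) (x : ι × Bool) : K → K → Prop :=
  fun a b => x.2 = true → B x.1 a b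

omit [Fintype ι] [DecidableEq ι] in
lemma next_ne (ρ : Equiv.Perm ι) (x : ι × Bool) : next ρ x ≠ x := by
  obtain ⟨j, b⟩ := x
  cases b
  · intro h
    have h1 := congrArg Prod.snd h
    simp [next] at h1
  · intro h
    have h1 := congrArg Prod.snd h
    simp [next] at h1

lemma numPerm_rel (ρ : Equiv.Perm ι) (B : ι → K → K → Prop) :
    numPerm (layered (next ρ) (rel B)) = ∑ p : (ι → Finset K) × (ι → Finset K),
      ∏ j, (cnt (fun _ _ : K => True) (p.1 j) (p.2 j) * cnt (B j) (p.2 j) (p.1 (ρ j))) := by
  classical
  rw [numPerm_layered (next ρ) (next_ne ρ)]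
  symm
  refine Fintype.sum_bijective (fun p x => if x.2 then p.2 x.1 else p.1 x.1) ?_ _ _ ?_
  · constructor
    · intro p q h
      apply Prod.ext
      · funext j
        have h1 := congrFun h (j, false)
        simpa using h1
      · funext j
        have h1 := congrFun h (j, true)
        simpa using h1
    · intro S
      refine ⟨(fun j => S (j, false), fun j => S (j, true)), ?_⟩
      funext x
      obtain ⟨j, b⟩ := x
      cases b <;> simp
  · intro p
    rw [Fintype.prod_prod_type]
    refine Finset.prod_congr rfl fun j _ => ?_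
    rw [Fintype.prod_bool, mul_comm]
    have h1 : rel B (j, true) = B j := by
      funext a b
      simp [rel]
    have h2 : rel B (j, false) = fun _ _ => True := by
      funext a b
      simp [rel]
    have h3 : next ρ (j, true) = (ρ j, false) := by simp [next]
    have h4 : next ρ (j, false) = (j, true) := by simp [next]
    rw [h1, h2, h3, h4]
    simp

/-- The main formula. -/
lemma numPerm_eq (ρ : Equiv.Perm ι) [Nonempty ι]
    (hρ : ∀ P : ι → ℕ, (∀ j, P (ρ j) = P j) → ∀ i j, P i = P j) (B : ι → K → K → Prop) :
    numPerm (layered (next ρ) (rel B)) = ∑ r ∈ range (Fintype.card K + 1), ∏ j, wt (B j) r := by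
  classical
  rw [numPerm_rel]
  have h1 : ∀ p : (ι → Finset K) × (ι → Finset K),
      ∏ j, (cnt (fun _ _ : K => True) (p.1 j) (p.2 j) * cnt (B j) (p.2 j) (p.1 (ρ j))) =
      ∑ r ∈ range (Fintype.card K + 1), ∏ j, (if (p.2 j).card = r then
        r.factorial * cnt (B j) (p.2 j) (p.1 (ρ j)) else 0) := by
    rintro ⟨S, T⟩
    simp only
    by_cases h : ∃ r, ∀ j, (S j).card = r ∧ (T j).card = r
    · obtain ⟨r, hr⟩ := h
      rw [Finset.sum_eq_single r]
      · refine Finset.prod_congr rfl fun j _ => ?_
        rw [if_pos (hr j).2, cnt_true _ _ ((hr j).1.trans (hr j).2.symm), (hr j).1]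
      · intro r' _ hne
        obtain ⟨j⟩ := (inferInstance : Nonempty ι)
        refine Finset.prod_eq_zero (mem_univ j) ?_
        rw [if_neg]
        rw [(hr j).2]
        exact fun h => hne h.symm
      · intro h2
        exfalso
        apply h2
        obtain ⟨j⟩ := (inferInstance : Nonempty ι)
        rw [mem_range, ← (hr j).1]
        exact Nat.lt_succ_of_le (Finset.card_le_univ _)
    · have hz : ∏ j, (cnt (fun _ _ : K => True) (S j) (T j) * cnt (B j) (T j) (S (ρ j))) = 0 := by
        by_contra h2
        apply h
        rw [← ne_eq, Finset.prod_ne_zero_iff] at h2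
        have h3 : ∀ j, (S j).card = (T j).card := by
          intro j
          by_contra h4
          exact h2 j (mem_univ j) (by rw [cnt_eq_zero _ _ _ h4, zero_mul])
        have h5 : ∀ j, (T j).card = (S (ρ j)).card := by
          intro j
          by_contra h4
          exact h2 j (mem_univ j) (by rw [cnt_eq_zero _ _ _ h4, mul_zero])
        have h6 := hρ (fun j => (S j).card) (fun j => ((h3 j).trans (h5 j)).symm)
        obtain ⟨i⟩ := (inferInstance : Nonempty ι)
        exact ⟨(S i).card, fun j => ⟨h6 j i, (h3 j).symm.trans (h6 j i)⟩⟩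
      rw [hz]
      symm
      refine Finset.sum_eq_zero fun r _ => ?_
      by_contra h2
      apply h
      rw [← ne_eq, Finset.prod_ne_zero_iff] at h2
      have h3 : ∀ j, (T j).card = r := by
        intro j
        by_contra h4
        exact h2 j (mem_univ j) (by rw [if_neg h4])
      have h5 : ∀ j, (T j).card = (S (ρ j)).card := by
        intro j
        by_contra h4
        refine h2 j (mem_univ j) ?_
        rw [cnt_eq_zero _ _ _ h4]
        simp
      refine ⟨r, fun j => ⟨?_, h3 j⟩⟩
      have h6 := h5 (ρ.symm j)
      rw [h3, Equiv.apply_symm_apply] at h6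
      exact h6.symm
  rw [Finset.sum_congr rfl fun p _ => h1 p, Finset.sum_comm]
  refine Finset.sum_congr rfl fun r _ => ?_
  have h2 : ∀ j, wt (B j) r = ∑ q : Finset K × Finset K, (if q.1.card = r then
      r.factorial * cnt (B j) q.1 q.2 else 0) := by
    intro j
    rw [Fintype.sum_prod_type]
    unfold wt
    rw [Finset.mul_sum]
    have h3 : powersetCard r (univ : Finset K) = univ.filter fun T : Finset K => T.card = r := by
      ext T
      simp [mem_powersetCard]
    rw [h3, Finset.sum_filter]
    refine Finset.sum_congr rfl fun T _ => ?_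
    by_cases hT : T.card = r
    · simp only [hT, if_true]
      rw [← sum_cnt, Finset.mul_sum]
    · simp [hT]
  rw [Finset.prod_congr rfl fun j _ => h2 j]
  have h3 := Finset.prod_univ_sum (fun _ : ι => (Finset.univ : Finset (Finset K × Finset K)))
    (fun j q => (if q.1.card = r then r.factorial * cnt (B j) q.1 q.2 else 0))
  rw [Fintype.piFinset_univ] at h3
  rw [h3]
  refine Fintype.sum_bijective (fun p j => (p.2 j, p.1 (ρ j))) ?_ _ _ ?_
  · constructor
    · intro p q h
      apply Prod.ext
      · funext j
        have h4 := congrArg Prod.snd (congrFun h (ρ.symm j))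
        simpa using h4
      · funext j
        exact congrArg Prod.fst (congrFun h j)
    · intro f
      refine ⟨(fun j => (f (ρ.symm j)).2, fun j => (f j).1), ?_⟩
      funext j
      simp
  · intro p
    rfl

lemma numDer_eq (ρ : Equiv.Perm ι) (B : ι → K → K → Prop) :
    numDer (layered (next ρ) (rel B)) =
      ∏ j, wt (B j) (Fintype.card K) := by
  classical
  rw [numDer_layered (next ρ) (next_ne ρ), Fintype.prod_prod_type]
  refine Finset.prod_congr rfl fun j _ => ?_
  rw [Fintype.prod_bool, mul_comm]
  have h1 : rel B (j, true) = B j := by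
    funext a b
    simp [rel]
  have h2 : rel B (j, false) = fun _ _ => True := by
    funext a b
    simp [rel]
  rw [h1, h2, cnt_true _ _ rfl]
  unfold wt
  have h3 : powersetCard (Fintype.card K) (univ : Finset K) = {univ} := by
    rw [← Finset.card_univ, Finset.powersetCard_self]
  rw [h3, Finset.sum_singleton, ← sum_cnt, Finset.sum_eq_single univ]
  · rfl
  · intro S _ hS
    apply cnt_eq_zero
    intro h4
    apply hS
    rw [← Finset.card_eq_iff_eq_univ, ← h4, Finset.card_univ]
  · intro h
    exact absurd (mem_univ _) h

end cyc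

end Pool.Agent.K9h39.Derr
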