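import Pool.Agent.K9h39.Derr.Count

/-!
Evaluation of the weights.
-/

set_option autoImplicit false

namespace Pool.Agent.K9h39.Derr

open Finset

/-- The identity with one more pair `(p, q)`. -/
def B1 {K : Type} (p q : K) (a b : K) : Prop := b = a ∨ (a = p ∧ b = q)

section

variable {K : Type} [Fintype K] [DecidableEq K]

omit [DecidableEq K] in
lemma wt_true (r : ℕ) :
    wt (fun _ _ : K => True) r = ((Fintype.card K).descFactorial r) ^ 2 := by
  unfold wt inj
  have h1 : ∀ T ∈ powersetCard r (univ : Finset K),
      Nat.card {f : T ↪ K // ∀ _a : T, True} = (Fintype.card K).descFactorial r := by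
    intro T hT
    rw [mem_powersetCard] at hT
    have h1 : Nat.card {f : T ↪ K // ∀ _a : T, True} = Nat.card (T ↪ K) :=
      Nat.card_congr (Equiv.subtypeUnivEquiv (fun _ _ => trivial))
    rw [h1, Nat.card_eq_fintype_card, Fintype.card_embedding_eq, Fintype.card_coe, hT.2]
  rw [Finset.sum_congr rfl h1, Finset.sum_const, card_powersetCard, Finset.card_univ, smul_eq_mul,
    ← mul_assoc, ← Nat.descFactorial_eq_factorial_mul_choose, sq]

omit [Fintype K] [DecidableEq K] in
lemma inj_B1_one {p q : K} (hpq : p ≠ q) (T : Finset K) (h : q ∈ T ∨ p ∉ T) :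
    inj (B1 p q) T = 1 := by
  unfold inj
  rw [Nat.card_eq_one_iff_unique]
  have h2 : ∀ f : {f : T ↪ K // ∀ a : T, B1 p q a (f a)}, ∀ a : T, f.1 a = a := by
    rintro ⟨f, hf⟩ a
    simp only
    rcases hf a with h3 | ⟨h3, h4⟩
    · exact h3
    · rcases h with hq | hp
      · exfalso
        rcases hf ⟨q, hq⟩ with h5 | ⟨h5, h6⟩
        · have h6 := f.injective (h4.trans h5.symm)
          rw [h6] at h3
          exact hpq h3.symm
        · exact hpq h5.symm
      · exact absurd (h3 ▸ a.2) hp
  constructor
  · constructor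
    intro f g
    apply Subtype.ext
    apply DFunLike.ext
    intro a
    rw [h2 f a, h2 g a]
  · exact ⟨⟨⟨fun a => a, fun a b h => Subtype.ext h⟩, fun a => Or.inl rfl⟩⟩

omit [Fintype K] in
lemma inj_B1_two {p q : K} (hpq : p ≠ q) (T : Finset K) (hp : p ∈ T) (hq : q ∉ T) :
    inj (B1 p q) T = 2 := by
  unfold inj
  have hinj : ∀ b : Bool, Function.Injective
      (fun a : T => if (a : K) = p ∧ b = true then q else (a : K)) := by
    intro b a c h
    simp only at h
    by_cases ha : (a : K) = p ∧ b = true <;> by_cases hc : (c : K) = p ∧ b = true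
    · exact Subtype.ext (ha.1.trans hc.1.symm)
    · rw [if_pos ha, if_neg hc] at h
      exact absurd (h ▸ c.2) hq
    · rw [if_neg ha, if_pos hc] at h
      exact absurd (h ▸ a.2) hq
    · rw [if_neg ha, if_neg hc] at h
      exact Subtype.ext h
  have hB : ∀ b : Bool, ∀ a : T, B1 p q a (if (a : K) = p ∧ b = true then q else (a : K)) := by
    intro b a
    by_cases ha : (a : K) = p ∧ b = true
    · right
      exact ⟨ha.1, if_pos ha⟩
    · left
      exact if_neg ha
  let F : Bool → {f : T ↪ K // ∀ a : T, B1 p q a (f a)} := fun b => ⟨⟨_, hinj b⟩, hB b⟩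
  have hFv : ∀ b (a : T), (F b).1 a = if (a : K) = p ∧ b = true then q else (a : K) :=
    fun b a => rfl
  have hF : Function.Bijective F := by
    constructor
    · intro b c h
      have h1 : (F b).1 ⟨p, hp⟩ = (F c).1 ⟨p, hp⟩ := by rw [h]
      rw [hFv, hFv] at h1
      cases b <;> cases c <;> simp_all
    · rintro ⟨f, hf⟩
      rcases hf ⟨p, hp⟩ with h3 | ⟨h3, h4⟩
      · refine ⟨false, ?_⟩
        apply Subtype.ext
        apply DFunLike.ext
        intro a
        rw [hFv]
        rcases hf a with h5 | ⟨h5, h6⟩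
        · simp [h5]
        · have h7 : a = ⟨p, hp⟩ := Subtype.ext h5
          rw [h7]
          simp [h3]
      · refine ⟨true, ?_⟩
        apply Subtype.ext
        apply DFunLike.ext
        intro a
        rw [hFv]
        by_cases ha : (a : K) = p
        · have h7 : a = ⟨p, hp⟩ := Subtype.ext ha
          rw [h7]
          simp [h4]
        · rcases hf a with h5 | ⟨h5, h6⟩
          · simp [h5, ha]
          · exact absurd h5 ha
  rw [← Nat.card_eq_of_bijective F hF]
  simp

omit [DecidableEq K] in
lemma wt_B1_top {p q : K} (hpq : p ≠ q) :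
    wt (B1 p q) (Fintype.card K) = (Fintype.card K).factorial := by
  unfold wt
  rw [← Finset.card_univ, Finset.powersetCard_self, Finset.sum_singleton,
    inj_B1_one hpq _ (Or.inl (mem_univ _)), mul_one]

lemma wt_B1_pred {p q : K} (hpq : p ≠ q) {n : ℕ} (hn : Fintype.card K = n + 1) :
    wt (B1 p q) n = n.factorial * (n + 2) := by
  unfold wt
  congr 1
  have h1 : ∑ T ∈ powersetCard n univ, inj (B1 p q) T = ∑ c : K, inj (B1 p q) (univ.erase c) := by
    symm
    refine Finset.sum_bij (fun c _ => univ.erase c) ?_ ?_ ?_ ?_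
    · intro c _
      rw [mem_powersetCard]
      refine ⟨subset_univ _, ?_⟩
      rw [Finset.card_erase_of_mem (mem_univ _), Finset.card_univ, hn]
      rfl
    · intro a _ b _ h
      by_contra hne
      have h2 : a ∈ univ.erase b := mem_erase.2 ⟨hne, mem_univ _⟩
      rw [← h] at h2
      exact (mem_erase.1 h2).1 rfl
    · intro T hT
      rw [mem_powersetCard] at hT
      have h2 : (univ \ T).card = 1 := by
        rw [Finset.card_sdiff_of_subset hT.1, Finset.card_univ, hn, hT.2]
        omega
      obtain ⟨c, hc⟩ := Finset.card_eq_one.1 h2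
      refine ⟨c, mem_univ _, ?_⟩
      ext x
      have h3 : x ∈ univ \ T ↔ x ∈ ({c} : Finset K) := by rw [hc]
      simp only [mem_sdiff, mem_univ, true_and, mem_singleton] at h3
      simp only [mem_erase, mem_univ, and_true, ne_eq]
      rw [← h3, not_not]
    · intro c _
      rfl
  rw [h1]
  have h2 : ∀ c : K, inj (B1 p q) (univ.erase c) = 1 + if c = q then 1 else 0 := by
    intro c
    by_cases hc : c = q
    · rw [if_pos hc]
      apply inj_B1_two hpq
      · rw [mem_erase, hc]
        exact ⟨hpq, mem_univ _⟩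
      · rw [hc]
        simp
    · rw [if_neg hc]
      apply inj_B1_one hpq
      left
      rw [mem_erase]
      exact ⟨fun h => hc h.symm, mem_univ _⟩
  rw [Finset.sum_congr rfl fun c _ => h2 c, Finset.sum_add_distrib]
  simp [hn]

end

end Pool.Agent.K9h39.Derr
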