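import Mathlib

/-!
Permutations on a layered digraph.
-/

set_option autoImplicit false

namespace Pool.Agent.K9h39.Derr

open Finset

/-- The number of permutations `σ` of `V` with `σ v = v` or `v → σ v` for all `v`. -/
noncomputable def numPerm {V : Type} (G : V → V → Prop) : ℕ :=
  Nat.card {σ : Equiv.Perm V // ∀ v, σ v = v ∨ G v (σ v)}

/-- The number of permutations `σ` of `V` with `v → σ v` for all `v`. -/
noncomputable def numDer {V : Type} (G : V → V → Prop) : ℕ :=
  Nat.card {σ : Equiv.Perm V // ∀ v, G v (σ v)}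

section layered

variable {I K : Type} [Fintype I] [DecidableEq I] [Fintype K] [DecidableEq K]

/-- The layered digraph: an arc from `(x, a)` to `(τ x, b)` if `R x a b`. -/
def layered (τ : Equiv.Perm I) (R : I → K → K → Prop) (v w : I × K) : Prop :=
  w.1 = τ v.1 ∧ R v.1 v.2 w.2

/-- The number of bijections `S ≃ T` inside the relation `R`. -/
noncomputable def cnt (R : K → K → Prop) (S T : Finset K) : ℕ :=
  Nat.card {e : S ≃ T // ∀ a : S, R a (e a)}

/-- The map underlying the permutation with given parts between the layers. -/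
def glue (τ : Equiv.Perm I) (R : I → K → K → Prop) (S : I → Finset K)
    (f : ∀ x, {e : S x ≃ S (τ x) // ∀ a : S x, R x a (e a)}) (v : I × K) : I × K :=
  if h : v.2 ∈ S v.1 then (τ v.1, ((f v.1).1 ⟨v.2, h⟩ : K)) else v

omit [Fintype I] [DecidableEq I] [Fintype K] in
lemma glue_injective (τ : Equiv.Perm I) (R : I → K → K → Prop) (S : I → Finset K)
    (f : ∀ x, {e : S x ≃ S (τ x) // ∀ a : S x, R x a (e a)}) :
    Function.Injective (glue τ R S f) := by
  rintro ⟨x, a⟩ ⟨y, b⟩ h
  unfold glue at h
  by_cases ha : a ∈ S x <;> by_cases hb : b ∈ S y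
  · simp only [ha, hb, dite_true, Prod.mk.injEq, EmbeddingLike.apply_eq_iff_eq] at h
    obtain ⟨rfl, h2⟩ := h
    have h3 := (f x).1.injective (Subtype.ext h2)
    simpa using h3
  · simp only [ha, hb, dite_true, dite_false, Prod.mk.injEq] at h
    obtain ⟨rfl, h2⟩ := h
    exact absurd (h2 ▸ ((f x).1 ⟨a, ha⟩).2) hb
  · simp only [ha, hb, dite_true, dite_false, Prod.mk.injEq] at h
    obtain ⟨rfl, h2⟩ := h
    exact absurd (h2 ▸ ((f y).1 ⟨b, hb⟩).2) ha
  · simpa only [ha, hb, dite_false] using h

lemma card_active (τ : Equiv.Perm I) (hτ : ∀ x, τ x ≠ x) (R : I → K → K → Prop)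
    (S : I → Finset K) :
    Nat.card {σ : Equiv.Perm (I × K) // (∀ v, σ v = v ∨ layered τ R v (σ v)) ∧
      ∀ v, (σ v ≠ v ↔ v.2 ∈ S v.1)} = ∏ x, cnt (R x) (S x) (S (τ x)) := by
  classical
  unfold cnt
  rw [← Nat.card_pi]
  symm
  have hval : ∀ (f : ∀ x, {e : S x ≃ S (τ x) // ∀ a : S x, R x a (e a)}) (v : I × K)
      (h : v.2 ∈ S v.1), glue τ R S f v = (τ v.1, ((f v.1).1 ⟨v.2, h⟩ : K)) := by
    intro f v h
    unfold glue
    rw [dif_pos h]
  have hval' : ∀ (f : ∀ x, {e : S x ≃ S (τ x) // ∀ a : S x, R x a (e a)}) (v : I × K)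
      (_ : v.2 ∉ S v.1), glue τ R S f v = v := by
    intro f v h
    unfold glue
    rw [dif_neg h]
  let φ : (∀ x, {e : S x ≃ S (τ x) // ∀ a : S x, R x a (e a)}) →
      {σ : Equiv.Perm (I × K) // (∀ v, σ v = v ∨ layered τ R v (σ v)) ∧
      ∀ v, (σ v ≠ v ↔ v.2 ∈ S v.1)} := fun f =>
    ⟨Equiv.ofBijective (glue τ R S f) (Finite.injective_iff_bijective.1 (glue_injective τ R S f)),
      by
        constructor
        · intro v
          rw [Equiv.ofBijective_apply]
          by_cases h : v.2 ∈ S v.1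
          · right
            rw [hval f v h]
            exact ⟨rfl, (f v.1).2 ⟨v.2, h⟩⟩
          · left
            exact hval' f v h
        · intro v
          rw [Equiv.ofBijective_apply]
          by_cases h : v.2 ∈ S v.1
          · simp only [h, iff_true]
            rw [hval f v h]
            intro h2
            exact hτ v.1 (congrArg Prod.fst h2)
          · simp only [h, iff_false, not_not]
            exact hval' f v h⟩
  refine Nat.card_congr (Equiv.ofBijective φ ⟨?_, ?_⟩)
  · intro f g hfg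
    have h1 : ∀ v, glue τ R S f v = glue τ R S g v := by
      intro v
      have h2 := congrArg (fun t => t.1 v) hfg
      exact h2
    funext x
    apply Subtype.ext
    apply Equiv.ext
    rintro ⟨a, ha⟩
    have h2 := h1 (x, a)
    rw [hval f (x, a) ha, hval g (x, a) ha] at h2
    exact Subtype.ext (congrArg Prod.snd h2)
  · rintro ⟨σ, h1, h2⟩
    have key : ∀ x (a : S x), ∃ b : S (τ x), σ (x, a) = (τ x, (b : K)) ∧ R x a b := by
      rintro x ⟨a, ha⟩
      have h3 : σ (x, a) ≠ (x, a) := (h2 (x, a)).2 ha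
      rcases h1 (x, a) with h4 | h4
      · exact absurd h4 h3
      · obtain ⟨h5, h6⟩ := h4
        have h7 : σ (x, a) = (τ x, (σ (x, a)).2) := Prod.ext h5 rfl
        refine ⟨⟨(σ (x, a)).2, ?_⟩, h7, h6⟩
        have h8 := (h2 (σ (x, a))).1 (fun h9 => h3 (σ.injective h9))
        rw [h5] at h8
        exact h8
    choose F hF1 hF2 using key
    have hbij : ∀ x, Function.Bijective (F x) := by
      intro x
      constructor
      · intro a b hab
        have h3 : σ (x, (a : K)) = σ (x, (b : K)) := by rw [hF1, hF1, hab]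
        have h4 := σ.injective h3
        exact Subtype.ext (congrArg Prod.snd h4)
      · rintro ⟨b, hb⟩
        obtain ⟨v, hv⟩ := σ.surjective (τ x, b)
        have hne : σ v ≠ v := by
          intro h5
          have h6 : v = (τ x, b) := h5 ▸ hv
          have h7 : σ (τ x, b) = (τ x, b) := h6 ▸ hv
          exact (h2 (τ x, b)).2 hb h7
        have hvS : v.2 ∈ S v.1 := (h2 v).1 hne
        have h5 := hF1 v.1 ⟨v.2, hvS⟩
        have h6 : σ (v.1, v.2) = (τ x, b) := hv
        rw [h6] at h5
        have h7 : x = v.1 := τ.injective (congrArg Prod.fst h5)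
        obtain ⟨y, a⟩ := v
        subst h7
        refine ⟨⟨a, hvS⟩, ?_⟩
        apply Subtype.ext
        exact (congrArg Prod.snd h5).symm
    let f0 : ∀ x, {e : S x ≃ S (τ x) // ∀ a : S x, R x a (e a)} :=
      fun x => ⟨Equiv.ofBijective (F x) (hbij x), fun a => hF2 x a⟩
    refine ⟨f0, ?_⟩
    apply Subtype.ext
    apply Equiv.ext
    rintro ⟨x, a⟩
    have h3 : (φ f0).1 (x, a) = glue τ R S f0 (x, a) := rfl
    rw [h3]
    by_cases ha : a ∈ S x
    · rw [hval _ (x, a) ha]
      exact (hF1 x ⟨a, ha⟩).symm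
    · rw [hval' _ (x, a) ha]
      by_contra h3
      exact ha ((h2 (x, a)).1 (fun h => h3 h.symm))

/-- The number of permutations on a layered digraph as a sum over the sets of moved points. -/
lemma numPerm_layered (τ : Equiv.Perm I) (hτ : ∀ x, τ x ≠ x) (R : I → K → K → Prop) :
    numPerm (layered τ R) = ∑ S : I → Finset K, ∏ x, cnt (R x) (S x) (S (τ x)) := by
  classical
  unfold numPerm
  have h1 : Nat.card {σ : Equiv.Perm (I × K) // ∀ v, σ v = v ∨ layered τ R v (σ v)} =
      Nat.card (Σ S : I → Finset K, {σ : Equiv.Perm (I × K) //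
        (∀ v, σ v = v ∨ layered τ R v (σ v)) ∧ ∀ v, (σ v ≠ v ↔ v.2 ∈ S v.1)}) := by
    refine Nat.card_congr (Equiv.symm (Equiv.ofBijective
      (fun p => ⟨p.2.1, p.2.2.1⟩) ⟨?_, ?_⟩))
    · rintro ⟨S, σ, h1, h2⟩ ⟨S', σ', h1', h2'⟩ h
      simp only [Subtype.mk.injEq] at h
      subst h
      have h3 : S = S' := by
        funext x
        ext a
        exact ((h2 (x, a)).symm.trans (h2' (x, a)))
      subst h3
      rfl
    · rintro ⟨σ, h⟩
      refine ⟨⟨fun x => Finset.univ.filter fun a => σ (x, a) ≠ (x, a), σ, h, ?_⟩, rfl⟩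
      rintro ⟨x, a⟩
      simp
  rw [h1, Nat.card_sigma]
  exact Finset.sum_congr rfl fun S _ => card_active τ hτ R S

/-- The number of derangements on a layered digraph. -/
lemma numDer_layered (τ : Equiv.Perm I) (hτ : ∀ x, τ x ≠ x) (R : I → K → K → Prop) :
    numDer (layered τ R) = ∏ x, cnt (R x) univ univ := by
  classical
  rw [← card_active τ hτ R (fun _ => univ)]
  unfold numDer
  refine Nat.card_congr (Equiv.subtypeEquivRight ?_)
  intro σ
  constructor
  · intro h
    refine ⟨fun v => Or.inr (h v), fun v => ?_⟩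
    simp only [mem_univ, iff_true]
    intro h2
    have h3 := (h v).1
    rw [h2] at h3
    exact hτ v.1 h3.symm
  · rintro ⟨h1, h2⟩ v
    rcases h1 v with h3 | h3
    · exact absurd h3 ((h2 v).2 (mem_univ _))
    · exact h3

end layered

end Pool.Agent.K9h39.Derr
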